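import Pool.Agent.U514.SP.Stm

/-!
Package OUT of project SP: the last items of the layout are the entries of the product.
-/

set_option autoImplicit false

namespace Pool.Agent.U99.SP

open Finset Pool.Agent.U514.SP

lemma key {F V X T : Type} [Field F] [Fintype X] [DecidableEq X] [Fintype T]
    (a b c : T → X → X → F) (h : IsAlg a b c) (A B : X → X → MvPolynomial V F) (x z : X) :
    ∑ τ, MvPolynomial.C (c τ x z) *
      ((∑ q : X × X, MvPolynomial.C (a τ q.1 q.2) * A q.1 q.2) *
        (∑ q : X × X, MvPolynomial.C (b τ q.1 q.2) * B q.1 q.2)) = ∑ y, A x y * B y z := by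
  have h1 : ∀ τ, MvPolynomial.C (c τ x z) *
      ((∑ q : X × X, MvPolynomial.C (a τ q.1 q.2) * A q.1 q.2) *
        (∑ q : X × X, MvPolynomial.C (b τ q.1 q.2) * B q.1 q.2))
      = ∑ q : X × X, ∑ q' : X × X, MvPolynomial.C (c τ x z * a τ q.1 q.2 * b τ q'.1 q'.2) *
        (A q.1 q.2 * B q'.1 q'.2) := by
    intro τ
    rw [Finset.sum_mul_sum, Finset.mul_sum]
    refine Finset.sum_congr rfl fun q _ => ?_
    rw [Finset.mul_sum]
    refine Finset.sum_congr rfl fun q' _ => ?_
    simp only [MvPolynomial.C_mul]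
    ring
  simp_rw [h1]
  rw [Finset.sum_comm]
  have h2 : ∀ q : X × X, ∑ τ, ∑ q' : X × X,
      MvPolynomial.C (c τ x z * a τ q.1 q.2 * b τ q'.1 q'.2) * (A q.1 q.2 * B q'.1 q'.2)
      = ∑ q' : X × X, MvPolynomial.C (if q.1 = x ∧ q.2 = q'.1 ∧ q'.2 = z then (1 : F) else 0) *
        (A q.1 q.2 * B q'.1 q'.2) := by
    intro q
    rw [Finset.sum_comm]
    refine Finset.sum_congr rfl fun q' _ => ?_
    rw [← Finset.sum_mul, ← map_sum, h x z q.1 q.2 q'.1 q'.2]
  simp_rw [h2]
  rw [Fintype.sum_prod_type, Finset.sum_eq_single x]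
  · refine Finset.sum_congr rfl fun y _ => ?_
    rw [Fintype.sum_prod_type, Finset.sum_eq_single y]
    · rw [Finset.sum_eq_single z]
      · simp
      · intro z' _ hz'
        simp [hz']
      · intro hz
        exact absurd (Finset.mem_univ _) hz
    · intro y' _ hy'
      refine Finset.sum_eq_zero fun z' _ => ?_
      have : ¬ (y = y') := fun e => hy' e.symm
      simp [this]
    · intro hy
      exact absurd (Finset.mem_univ _) hy
  · intro x' _ hx'
    refine Finset.sum_eq_zero fun y _ => Finset.sum_eq_zero fun q' _ => ?_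
    simp [hx']
  · intro hx
    exact absurd (Finset.mem_univ _) hx

theorem t_OUT : S_OUT := by
  intro F V _ p hp i3 k3 x i z k
  show ∑ τ : Fin p.nT, MvPolynomial.C (p.c τ x z) * p.valM i3 k3 τ i k = _
  rw [Finset.sum_comm]
  have h1 : ∀ τ : Fin p.nT, MvPolynomial.C (p.c τ x z) * p.valM i3 k3 τ i k
      = ∑ j : Fin p.N, MvPolynomial.C (p.c τ x z) * (p.valL i3 τ i j * p.valR k3 τ k j) := by
    intro τ
    unfold Par.valM
    rw [Finset.mul_sum]
  simp_rw [h1]
  rw [Finset.sum_comm]
  refine Finset.sum_congr rfl fun j _ => ?_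
  exact key p.a p.b p.c hp.alg (fun q1 q2 => Par.ent (p.entA (q1, i, i3) (q2, j)))
    (fun q1 q2 => Par.ent (p.entB (q1, j) (q2, k, k3))) x z

end Pool.Agent.U99.SP
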